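import Pool.Agent.Q279.RR.Mon

/-!
# Eigenvector approximants of generalized Rogers-Ramanujan fractions at roots of unity

`P a x n`, `Q a x n` are the numerators and denominators of the approximants of `K_a(x)` and
`A a x m` is the monodromy matrix (all from `Pool.Agent.Q279.RR.Defs`).
-/

set_option autoImplicit false

namespace Pool.Agent.Results.MP_b3b2bb_nt.Eigenvectors

open Matrix Q279.RR Complex

/-- The question Q1 is answered affirmatively: for all `k, m, j, l` with `gcd(l, m) = 1`, `5 ∣ m`,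
`k ∣ m` (the hypothesis `gcd(j, k) = 1` is not needed), `a = exp(2 π i j / k)`,
`x = exp(2 π i l / m)`, `l l' ≡ 1 (mod m)` and `s₀ ≡ -(m / k) j l' (mod m)` there is `μ ∈ {(1 + √5) / 2, (1 - √5) / 2}` such that for every `r ≥ 0` with `r ≡ s₀ - 2 (mod m)` the
vector `(P_r, Q_r)` is an eigenvector of `A` with eigenvalue `μ`, and for every `r ≥ 0` with
`r ≡ s₀ - 1 (mod m)` it is an eigenvector with the other eigenvalue `1 - μ`; in both cases the
eigenvalue is `(1 + √5) / 2` or `(1 - √5) / 2`. -/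
theorem result (k m : ℕ) (j l l' s₀ : ℤ) (hk : 1 ≤ k) (hm : 3 ≤ m)
    (hlm : Int.gcd l m = 1) (h5 : 5 ∣ m) (hkm : k ∣ m)
    (hl' : l * l' ≡ 1 [ZMOD m]) (hs₀ : s₀ ≡ -((m / k : ℕ) * j * l') [ZMOD m])
    (a x : ℂ) (ha : a = exp (2 * Real.pi * I * (j / k)))
    (hx : x = exp (2 * Real.pi * I * (l / m))) :
    ∃ μ : ℂ, (μ = (1 + (Real.sqrt 5 : ℝ)) / 2 ∨ μ = (1 - (Real.sqrt 5 : ℝ)) / 2) ∧
      (1 - μ = (1 + (Real.sqrt 5 : ℝ)) / 2 ∨ 1 - μ = (1 - (Real.sqrt 5 : ℝ)) / 2) ∧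
      ∀ r : ℕ,
        ((r : ℤ) ≡ s₀ - 2 [ZMOD m] →
          Module.End.HasEigenvector (Matrix.toLin' (A a x m)) μ ![P a x r, Q a x r]) ∧
        ((r : ℤ) ≡ s₀ - 1 [ZMOD m] →
          Module.End.HasEigenvector (Matrix.toLin' (A a x m)) (1 - μ) ![P a x r, Q a x r]) := by
  have hm0 : (m : ℂ) ≠ 0 := by exact_mod_cast (show m ≠ 0 by omega)
  have hk0 : (k : ℂ) ≠ 0 := by exact_mod_cast (show k ≠ 0 by omega)
  obtain ⟨ζ, hζ⟩ : ∃ ζ : ℂ, ζ = exp (2 * Real.pi * I / m) := ⟨_, rfl⟩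
  have hζp : IsPrimitiveRoot ζ m := by
    rw [hζ]; exact Complex.isPrimitiveRoot_exp m (by omega)
  have hζ0 : ζ ≠ 0 := hζp.ne_zero (by omega)
  have hxζ : x = ζ ^ l := by
    rw [hx, hζ, ← exp_int_mul]; congr 1; field_simp
  have haζ : a = ζ ^ (((m / k : ℕ) : ℤ) * j) := by
    rw [ha, hζ, ← exp_int_mul]; congr 1
    rw [Int.cast_mul, Int.cast_natCast, Nat.cast_div hkm hk0]
    field_simp
  have hxp : IsPrimitiveRoot x m := by
    rw [hxζ]; exact hζp.zpow_of_gcd_eq_one l hlm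
  have hx1 : x ^ m = 1 := hxp.pow_eq_one
  have hx0 : x ≠ 0 := hxp.ne_zero (by omega)
  have ha0 : a ≠ 0 := by rw [haζ]; exact zpow_ne_zero _ hζ0
  have hkey : ∀ n : ℕ, (n : ℤ) ≡ s₀ [ZMOD m] → a * x ^ n = 1 := by
    intro n hn
    rw [haζ, hxζ, ← zpow_natCast, ← _root_.zpow_mul, ← zpow_add₀ hζ0]
    rw [hζp.zpow_eq_one_iff_dvd, ← Int.modEq_zero_iff_dvd]
    have h1 : l * (n : ℤ) ≡ l * (-((m / k : ℕ) * j * l')) [ZMOD m] :=
      (hn.trans hs₀).mul_left l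
    have h2 : l * (-(((m / k : ℕ) : ℤ) * j * l')) = (-(((m / k : ℕ) : ℤ) * j)) * (l * l') := by
      ring
    have h3 : (-(((m / k : ℕ) : ℤ) * j)) * (l * l') ≡ (-(((m / k : ℕ) : ℤ) * j)) * 1 [ZMOD m] :=
      hl'.mul_left _
    have h4 := h1.trans (h2 ▸ h3)
    have h5 := h4.add_left (((m / k : ℕ) : ℤ) * j)
    refine h5.trans ?_
    rw [mul_one, add_neg_cancel]
  have hsum := eig_sum hm hxp
  have hprod := eig_prod hm hxp h5
  obtain ⟨μ, hμ⟩ : ∃ μ : ℂ, μ = seq 1 x 1 0 m := ⟨_, rfl⟩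
  have hμ' : 1 - μ = seq 1 x 0 1 (m + 1) := by rw [hμ]; linear_combination -hsum
  have hq : μ ^ 2 - μ - 1 = 0 := by
    rw [← hμ, ← hμ'] at hprod
    linear_combination -hprod
  refine ⟨μ, root_cases hq, root_cases (by linear_combination hq), fun r => ⟨fun hr => ?_,
    fun hr => ?_⟩⟩
  · rw [Module.End.hasEigenvector_iff, Module.End.mem_eigenspace_iff]
    refine ⟨?_, PQ_ne ha0 hx0 r⟩
    rw [Matrix.toLin'_apply, A_mulVec_PQ hm hx1]
    have h1 : a * x ^ (r + 2) = 1 := by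
      apply hkey
      push_cast
      have := hr.add_right 2
      simpa using this
    have h2 := seq_eig1 (by omega) hxp h5 h1 0 1
    have h3 := seq_eig1 (by omega) hxp h5 h1 1 1
    rw [P_eq, Q_eq, P_eq, Q_eq, show r + m + 2 = r + 2 + m by ring, h2, h3, ← hμ]
    ext i
    fin_cases i <;> simp
  · rw [Module.End.hasEigenvector_iff, Module.End.mem_eigenspace_iff]
    refine ⟨?_, PQ_ne ha0 hx0 r⟩
    rw [Matrix.toLin'_apply, A_mulVec_PQ hm hx1]
    have h1 : a * x ^ (r + 1) = 1 := by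
      apply hkey
      push_cast
      have := hr.add_right 1
      simpa using this
    have h2 := seq_eig2 (by omega) hxp h5 h1 0 1
    have h3 := seq_eig2 (by omega) hxp h5 h1 1 1
    rw [P_eq, Q_eq, P_eq, Q_eq, show r + m + 2 = r + 1 + 1 + m by ring, h2, h3, ← hμ']
    ext i
    fin_cases i <;> simp

end Pool.Agent.Results.MP_b3b2bb_nt.Eigenvectors
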